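import Mathlib
import Pool.Agent.Lib.MP_f9aece_nt_loc.Total
import Pool.Agent.Lib.MP_f9aece_nt_gt.G3

/-!
The Gaussian law of the logarithm of the modulus of the randomly shifted zeta function at all scales
above a constant, under the uniform law and under the law biased by the square of the modulus.

Let `ω` be uniform on `[0, 1]`, `μ = zeta(1/2 + i x + i ω T)`, `L = log T`, `s = sqrt ((log L) / 2)` and
`Z` a standard Gaussian variable.  For `k = 0` and `k = 2` let `X` be `log |μ| - (k/2) log L` under the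
law with density `|μ|^k / L^(k^2/4)`.  Up to a factor tending to one, the probabilities that `X` lies in
an interval `(V, W]`, `(V, ∞)` or `(-∞, W]` are those of `s Z`, uniformly for intervals of length at least
a large constant which meet `[-M s, o(log L)]` (`k = 0`, `M` fixed) or `[-o(log L), o(log L)]` (`k = 2`).
Consequently the truncated moments are those of the Gaussian law, and the moments of `|μ|` of orders
close to `0` and to `2` are `L^(β^2/4)`, up to a factor close to one.
-/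

set_option autoImplicit false

namespace Pool.Agent.Results.MP_f9aece_nt.GaussianLaw

open MeasureTheory Complex

/-- the modulus of the shifted zeta function -/
noncomputable def modulus (x T u : ℝ) : ℝ := ‖riemannZeta (1 / 2 + I * x + I * u * T)‖

/-- the expectation of `|μ|^k` on the event `y < |μ| ≤ z` -/
noncomputable def middlePart (k : ℕ) (x T y z : ℝ) : ℝ :=
  ∫ u in {u : ℝ | u ∈ Set.Icc (0 : ℝ) 1 ∧ y < modulus x T u ∧ modulus x T u ≤ z}, modulus x T u ^ k

/-- the expectation of `|μ|^k` on the event `|μ| > y` -/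
noncomputable def upperPart (k : ℕ) (x T y : ℝ) : ℝ :=
  ∫ u in {u : ℝ | u ∈ Set.Icc (0 : ℝ) 1 ∧ y < modulus x T u}, modulus x T u ^ k

/-- the expectation of `|μ|^k` on the event `|μ| ≤ z` -/
noncomputable def lowerPart (k : ℕ) (x T z : ℝ) : ℝ :=
  ∫ u in {u : ℝ | u ∈ Set.Icc (0 : ℝ) 1 ∧ modulus x T u ≤ z}, modulus x T u ^ k

/-- the moment of order `β` of the modulus -/
noncomputable def moment (β x T : ℝ) : ℝ := ∫ u in (0 : ℝ)..1, modulus x T u ^ β

/-- the expectation of `|μ|^k min(|μ| / A, Y)^β` -/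
noncomputable def truncatedMoment (k : ℕ) (A β x T Y : ℝ) : ℝ :=
  ∫ u in (0 : ℝ)..1, modulus x T u ^ k * min (modulus x T u / A) Y ^ β

/-- the expectation of `|μ|^2 min(A / |μ|, Y)^β` -/
noncomputable def invertedMoment (A β x T Y : ℝ) : ℝ :=
  ∫ u in (0 : ℝ)..1, modulus x T u ^ 2 * min (A / modulus x T u) Y ^ β

/-- the density of the standard Gaussian law -/
noncomputable def gaussianDensity (t : ℝ) : ℝ :=
  (Real.sqrt (2 * Real.pi))⁻¹ * Real.exp (-(t ^ 2 / 2))

/-- the probability that a standard Gaussian variable lies in `(y, z]` -/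
noncomputable def gaussianInterval (y z : ℝ) : ℝ := ∫ t in Set.Ioc y z, gaussianDensity t

/-- the tail of the standard Gaussian law -/
noncomputable def gaussianTail (y : ℝ) : ℝ := ∫ t in Set.Ioi y, gaussianDensity t

/-- the moment of order `β` of `e^(s Z)` truncated at `Y`, for `Z` standard Gaussian -/
noncomputable def gaussianMoment (β s Y : ℝ) : ℝ :=
  ∫ t : ℝ, min (Real.exp (s * t)) Y ^ β * gaussianDensity t

private theorem tail_eq (y : ℝ) : gaussianTail y = Pool.Agent.Lib.GT.tl y := by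
  unfold gaussianTail Pool.Agent.Lib.GT.tl
  rw [Pool.Agent.Lib.GT.G1.meas_eq]
  exact integral_congr_ae (Filter.Eventually.of_forall fun t => (Pool.Agent.Lib.GT.G1.pdf_eq t).symm)

private theorem inter_eq {s V W : ℝ} (hs : 0 < s) (hVW : V ≤ W) :
    gaussianInterval (V / s) (W / s) = Pool.Agent.Lib.LC.gi s V W := by
  have h1 : V / s ≤ W / s := div_le_div_of_nonneg_right hVW hs.le
  have h2 : Integrable gaussianDensity := by
    have h3 := ProbabilityTheory.integrable_gaussianPDFReal 0 1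
    refine h3.congr (Filter.Eventually.of_forall fun t => ?_)
    exact Pool.Agent.Lib.GT.G1.pdf_eq t
  have h4 : gaussianTail (V / s) = gaussianInterval (V / s) (W / s) + gaussianTail (W / s) := by
    unfold gaussianTail gaussianInterval
    rw [← setIntegral_union (Set.Ioc_disjoint_Ioi le_rfl) measurableSet_Ioi h2.integrableOn
      h2.integrableOn, Set.Ioc_union_Ioi_eq_Ioi h1]
  have h5 : (ProbabilityTheory.gaussianReal 0 (Real.toNNReal (s ^ 2)) (Set.Ioi V)).toReal =
      Pool.Agent.Lib.LC.gi s V W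
        + (ProbabilityTheory.gaussianReal 0 (Real.toNNReal (s ^ 2)) (Set.Ioi W)).toReal := by
    unfold Pool.Agent.Lib.LC.gi
    rw [← ENNReal.toReal_add (measure_ne_top _ _) (measure_ne_top _ _),
      ← measure_union (Set.Ioc_disjoint_Ioi le_rfl) measurableSet_Ioi, Set.Ioc_union_Ioi_eq_Ioi hVW]
  rw [Pool.Agent.Lib.GT.G1.scale hs, Pool.Agent.Lib.GT.G1.scale hs, ← tail_eq, ← tail_eq] at h5
  linarith

private theorem gauss_eq (β s Y : ℝ) : gaussianMoment β s Y = Pool.Agent.Lib.G2.gm s Y β := by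
  unfold Pool.Agent.Lib.G2.gm
  rw [ProbabilityTheory.integral_gaussianReal_eq_integral_smul one_ne_zero]
  refine integral_congr_ae (Filter.Eventually.of_forall fun t => ?_)
  beta_reduce
  rw [Pool.Agent.Lib.GT.G1.pdf_eq, smul_eq_mul, mul_comm]
  rfl

private theorem interval_eq (f : ℝ → ℝ) : ∫ u in (0 : ℝ)..1, f u = ∫ u in Set.Icc (0 : ℝ) 1, f u := by
  rw [intervalIntegral.integral_of_le zero_le_one, ← integral_Icc_eq_integral_Ioc]

theorem result : ∀ ε : ℝ, 0 < ε → ∃ h₀ δ T₀ : ℝ, 0 < h₀ ∧ 0 < δ ∧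
    ∀ x T : ℝ, T₀ ≤ T → |x| ≤ T ^ (9 / 10 : ℝ) →
    (∀ k : ℕ, k = 0 ∨ k = 2 →
      (∀ V W : ℝ, V + h₀ ≤ W → V ≤ δ * Real.log (Real.log T) →
        (k = 0 → -(Real.sqrt (Real.log (Real.log T)) / ε) ≤ W) →
        (k = 2 → -(δ * Real.log (Real.log T)) ≤ W) →
        |middlePart k x T (Real.log T ^ ((k : ℝ) / 2) * Real.exp V)
              (Real.log T ^ ((k : ℝ) / 2) * Real.exp W)
            - Real.log T ^ ((k : ℝ) ^ 2 / 4)
              * gaussianInterval (V / Real.sqrt (Real.log (Real.log T) / 2))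
                (W / Real.sqrt (Real.log (Real.log T) / 2))|
          ≤ ε * (Real.log T ^ ((k : ℝ) ^ 2 / 4)
              * gaussianInterval (V / Real.sqrt (Real.log (Real.log T) / 2))
                (W / Real.sqrt (Real.log (Real.log T) / 2)))) ∧
      (∀ V : ℝ, V ≤ δ * Real.log (Real.log T) →
        |upperPart k x T (Real.log T ^ ((k : ℝ) / 2) * Real.exp V)
            - Real.log T ^ ((k : ℝ) ^ 2 / 4) * gaussianTail (V / Real.sqrt (Real.log (Real.log T) / 2))|
          ≤ ε * (Real.log T ^ ((k : ℝ) ^ 2 / 4)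
            * gaussianTail (V / Real.sqrt (Real.log (Real.log T) / 2)))) ∧
      (∀ W : ℝ, (k = 0 → -(Real.sqrt (Real.log (Real.log T)) / ε) ≤ W) →
        (k = 2 → -(δ * Real.log (Real.log T)) ≤ W) →
        |lowerPart k x T (Real.log T ^ ((k : ℝ) / 2) * Real.exp W)
            - Real.log T ^ ((k : ℝ) ^ 2 / 4) * gaussianTail (-W / Real.sqrt (Real.log (Real.log T) / 2))|
          ≤ ε * (Real.log T ^ ((k : ℝ) ^ 2 / 4)
            * gaussianTail (-W / Real.sqrt (Real.log (Real.log T) / 2)))) ∧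
      (∀ d β : ℝ, d ≤ δ → 0 < β →
        |truncatedMoment k (Real.log T ^ ((k : ℝ) / 2)) β x T (Real.log T ^ d)
            - Real.log T ^ ((k : ℝ) ^ 2 / 4)
              * gaussianMoment β (Real.sqrt (Real.log (Real.log T) / 2)) (Real.log T ^ d)|
          ≤ ε * (Real.log T ^ ((k : ℝ) ^ 2 / 4)
              * gaussianMoment β (Real.sqrt (Real.log (Real.log T) / 2)) (Real.log T ^ d)))) ∧
    (∀ d β : ℝ, d ≤ δ → 0 < β →
      |invertedMoment (Real.log T) β x T (Real.log T ^ d)
          - Real.log T * gaussianMoment β (Real.sqrt (Real.log (Real.log T) / 2)) (Real.log T ^ d)|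
        ≤ ε * (Real.log T
          * gaussianMoment β (Real.sqrt (Real.log (Real.log T) / 2)) (Real.log T ^ d))) ∧
    (∀ β : ℝ, 0 < β → β ≤ δ ∨ |β - 2| ≤ δ →
      |moment β x T - Real.log T ^ (β ^ 2 / 4)| ≤ ε * Real.log T ^ (β ^ 2 / 4)) := by
  intro ε hε
  obtain ⟨h₀, δ, T₀, hh, hδ, h⟩ := Pool.Agent.Lib.LC.total ε hε
  obtain ⟨T₁, hT₁⟩ := Filter.eventually_atTop.mp
    (Pool.Agent.Lib.GT.tendsto_loglog.eventually (Filter.eventually_ge_atTop 1))
  refine ⟨h₀, δ, max T₀ T₁, hh, hδ, fun x T hT hx => ?_⟩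
  have hl : 1 ≤ Real.log (Real.log T) := hT₁ T ((le_max_right _ _).trans hT)
  have hs : 0 < Real.sqrt (Real.log (Real.log T) / 2) := Real.sqrt_pos.mpr (by linarith)
  obtain ⟨h1, h2, h3⟩ := h x T ((le_max_left _ _).trans hT) hx
  refine ⟨fun k hk => ⟨fun V W hVW hV hW0 hW2 => ?_, fun V hV => ?_, fun W hW0 hW2 => ?_,
    fun d β hd hβ => ?_⟩, fun d β hd hβ => ?_, ?_⟩
  · rw [inter_eq hs (by linarith)]
    exact (h1 k hk).1 V W hVW hV hW0 hW2
  · rw [tail_eq]
    exact (h1 k hk).2.1 V hV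
  · rw [tail_eq]
    exact (h1 k hk).2.2.1 W hW0 hW2
  · rw [gauss_eq]
    unfold truncatedMoment
    rw [interval_eq]
    exact (h1 k hk).2.2.2 d β hd hβ
  · rw [gauss_eq]
    unfold invertedMoment
    rw [interval_eq]
    exact h2 d β hd hβ
  · exact h3

end Pool.Agent.Results.MP_f9aece_nt.GaussianLaw
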