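import Mathlib
import Pool.Agent.Lib.MP_f9aece_nt_n4.NearFinal
import Pool.Agent.Lib.MP_f9aece_nt_dl.All
import Pool.Agent.Lib.LFA.All

/-!
# Moments of the zeta function near the critical line

The moment `E|ζ(1/2 + δ + ix + iωT)|^β` at distance `δ` from the critical line, uniformly for
`δ → 0`, `δ log T → ∞`: it is asymptotic to `a(β) (2δ)^(-β²/4)` for every real `0 < β ≤ 4`, and
at least `(1 - o(1))` times that for every real `β > 0`, where `a(β)` is the arithmetic factor of
the conjectured constant of the moment on the line.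

For every real `β ≥ 2` this law near the line, for one `x` or for all, is equivalent to a bound of
the expected order at a bounded distance `K / log T`, for one `x` and one `K ≥ 0` (`K = 0` is the
critical line itself) or for all.  The `K ≥ 0` at which the normalised moment converges form a
closed set, and for even `β` this set is everything as soon as the sum of `1/(1+K)` over it is
infinite.
-/

set_option autoImplicit false

namespace Pool.Agent.Results.MP_f9aece_nt.NearLineFour

open Filter Topology Set Complex MeasureTheory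

/-- The moment `E|ζ(1/2 + δ + ix + iωT)|^β` with `ω` uniform on `[0,1]`. -/
noncomputable def momentAt (β x δ T : ℝ) : ℝ :=
  ∫ u in (0 : ℝ)..1, ‖riemannZeta (1 / 2 + δ + I * x + I * u * T)‖ ^ β

/-- The coefficients `Γ(k + i) / (Γ(k) i!)` of the power series of `(1 - z)^(-k)`. -/
noncomputable def coef (k : ℝ) (i : ℕ) : ℝ := ∏ l ∈ Finset.range i, (k + l) / (l + 1)

/-- The arithmetic factor `∏_p (1 - 1/p)^(β²/4) ∑_i (Γ(i + β/2) / (Γ(β/2) i!))² p^(-i)`. -/
noncomputable def arith (β : ℝ) : ℝ :=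
  ∏' p : Nat.Primes, ((1 - ((p : ℕ) : ℝ)⁻¹) ^ (β ^ 2 / 4)
    * ∑' i : ℕ, coef (β / 2) i ^ 2 * (((p : ℕ) : ℝ)⁻¹) ^ i)

/-- The moment at distance `K / log T` from the line, divided by `(log T)^(β²/4)`. -/
noncomputable def scaled (β x K T : ℝ) : ℝ :=
  momentAt β x (K / Real.log T) T / Real.log T ^ (β ^ 2 / 4)

/-- The distances `K ≥ 0` at which the normalised moment converges. -/
def lawSet (β x : ℝ) : Set ℝ := {K : ℝ | 0 ≤ K ∧ ∃ l : ℝ, Tendsto (scaled β x K) atTop (𝓝 l)}

/-- The moment at distance `K / log T` has at most the expected order `(log T)^(β²/4)`. -/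
def BoundedOrder (β x K : ℝ) : Prop := ∃ C T0 : ℝ, ∀ T : ℝ, T0 ≤ T → scaled β x K T ≤ C

/-- The law near the line: the moment at distance `δ` is asymptotic to the expected main term,
uniformly for `δ → 0`, `δ log T → ∞`. -/
def NearLaw (β x : ℝ) : Prop := ∀ ε : ℝ, 0 < ε → ∃ C : ℝ, 0 < C ∧ ∀ δ T : ℝ,
  0 < δ → δ ≤ 1 / C → 1 ≤ T → C ≤ δ * Real.log T →
    |momentAt β x δ T - arith β * (2 * δ) ^ (-(β ^ 2 / 4))|
      ≤ ε * (arith β * (2 * δ) ^ (-(β ^ 2 / 4)))

/-- **Main result.** Near the critical line the moments of all orders are at least, and those of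
order at most four are asymptotic to, the expected main term; for every order `β ≥ 2` the latter is
equivalent to a bound of the expected order on the line, or at one bounded distance; the bounded
distances at which the law holds form a closed set, for even orders all or a sparse one. -/
theorem result :
    (∀ x B ε : ℝ, 0 < ε → ∃ C : ℝ, 0 < C ∧
      ∀ β δ T : ℝ, 0 < β → β ≤ B → 0 < δ → δ ≤ 1 / C → 1 ≤ T → C ≤ δ * Real.log T →
        0 < arith β ∧
        (1 - ε) * (arith β * (2 * δ) ^ (-(β ^ 2 / 4))) ≤ momentAt β x δ T ∧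
        (β ≤ 4 → momentAt β x δ T ≤ (1 + ε) * (arith β * (2 * δ) ^ (-(β ^ 2 / 4))))) ∧
    (∀ β : ℝ, 2 ≤ β → List.TFAE [∃ x K : ℝ, 0 ≤ K ∧ BoundedOrder β x K,
      ∀ x K : ℝ, BoundedOrder β x K, ∃ x : ℝ, NearLaw β x, ∀ x : ℝ, NearLaw β x]) ∧
    (∀ x β : ℝ, 2 ≤ β → IsClosed (lawSet β x)) ∧
    (∀ (k : ℕ) (x : ℝ), 1 ≤ k → ¬ Summable (fun K : lawSet (2 * k) x => 1 / (1 + (K : ℝ))) →
      ∃ r : ℝ → ℝ, (∀ K : ℝ, Tendsto (scaled (2 * k) x K) atTop (𝓝 (r K))) ∧ 0 < r 0) := by
  have hmom : ∀ β x K T : ℝ,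
      momentAt β x (K / Real.log T) T = LFA.V β x T ((K / Real.log T : ℝ) : ℂ) := by
    intro β x K T
    unfold momentAt LFA.V
    refine intervalIntegral.integral_congr fun u _ => ?_
    show ‖riemannZeta (1 / 2 + ((K / Real.log T : ℝ) : ℂ) + I * x + I * u * T)‖ ^ β
      = ‖riemannZeta (1 / 2 + ((K / Real.log T : ℝ) : ℂ) + I * (x + u * T))‖ ^ β
    congr 3
    ring
  have hsc : ∀ β x K : ℝ, scaled β x K = LFA.R10x.Rn β x K := by
    intro β x K
    funext T
    unfold scaled LFA.R10x.Rn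
    rw [hmom]
  have hbd : ∀ β x K : ℝ, BoundedOrder β x K ↔ LFA.BoundedAt β x K := by
    intro β x K
    constructor
    · rintro ⟨C, T0, h⟩
      refine ⟨C, max T0 3, fun T hT => ?_⟩
      have h1 := h T ((le_max_left _ _).trans hT)
      have hL : 0 < Real.log T := Real.log_pos (by linarith [(le_max_right T0 3).trans hT])
      unfold scaled at h1
      rw [div_le_iff₀ (by positivity), hmom] at h1
      exact h1
    · rintro ⟨C, T0, h⟩
      refine ⟨C, max T0 3, fun T hT => ?_⟩
      have h1 := h T ((le_max_left _ _).trans hT)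
      have hL : 0 < Real.log T := Real.log_pos (by linarith [(le_max_right T0 3).trans hT])
      unfold scaled
      rw [div_le_iff₀ (by positivity), hmom]
      exact h1
  have hA : ∀ x B ε : ℝ, 0 < ε → ∃ C : ℝ, 0 < C ∧
      ∀ β δ T : ℝ, 0 < β → β ≤ B → 0 < δ → δ ≤ 1 / C → 1 ≤ T → C ≤ δ * Real.log T →
        0 < arith β ∧
        (1 - ε) * (arith β * (2 * δ) ^ (-(β ^ 2 / 4))) ≤ momentAt β x δ T ∧
        (β ≤ 4 → momentAt β x δ T ≤ (1 + ε) * (arith β * (2 * δ) ^ (-(β ^ 2 / 4)))) := by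
    intro x B ε hε
    obtain ⟨N0, hN0⟩ := exists_nat_ge B
    obtain ⟨C, hC, h⟩ := Pool.Agent.Lib.N4.nearFinal (N0 + 1) (by omega) x ε hε
    refine ⟨C, hC, fun β δ T hβ hβB hδ hδC hT hCT => h β δ T hβ ?_ hδ hδC hT hCT⟩
    push_cast
    linarith
  have hak : ∀ β : ℝ, Pool.Agent.Lib.NL.ak (β / 2) = arith β := by
    intro β
    have e2 : (β / 2) ^ 2 = β ^ 2 / 4 := by ring
    unfold Pool.Agent.Lib.NL.ak arith Pool.Agent.Lib.NL.Fi
    rw [e2]
    rfl
  refine ⟨hA, ?_, ?_, ?_⟩
  · intro β hβ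
    have h13 : (∃ x K : ℝ, 0 ≤ K ∧ BoundedOrder β x K) → ∀ x : ℝ, NearLaw β x := by
      rintro ⟨x0, K, hK, hb⟩ x ε hε
      obtain ⟨C1, hC1, h1⟩ := Pool.Agent.Lib.DL.upperOfBounded hβ hK ((hbd β x0 K).mp hb) x ε hε
      obtain ⟨C2, hC2, h2⟩ := hA x β ε hε
      refine ⟨max C1 C2, lt_of_lt_of_le hC2 (le_max_right _ _), fun δ T hδ hδC hT hCT => ?_⟩
      have hd : ∀ X : ℝ, 0 < X → X ≤ max C1 C2 → δ ≤ 1 / X := fun X hX hX' =>
        hδC.trans (one_div_le_one_div_of_le hX hX')
      have h3 := h1 δ T hδ (hd C1 (by linarith) (le_max_left _ _)) hT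
        ((le_max_left _ _).trans hCT)
      have h4 := (h2 β δ T (by linarith) le_rfl hδ (hd C2 hC2 (le_max_right _ _)) hT
        ((le_max_right _ _).trans hCT)).2.1
      rw [hak] at h3
      have e : Pool.Agent.Lib.NL.momL β x δ T = momentAt β x δ T := rfl
      rw [e] at h3
      rw [abs_le]
      constructor <;> linarith
    have h32 : (∃ x : ℝ, NearLaw β x) → ∃ x K : ℝ, 0 ≤ K ∧ BoundedOrder β x K := by
      rintro ⟨x, h⟩
      obtain ⟨C, hC, h1⟩ := h 1 one_pos
      refine ⟨x, 0, le_rfl, (hbd β x 0).mpr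
        (Pool.Agent.Lib.DL.bounded_of_upper (A := 2 * arith β) hβ hC ?_ 0)⟩
      intro δ T hδ hδC hT hCT
      have h2 := (abs_le.mp (h1 δ T hδ hδC hT hCT)).2
      have e : Pool.Agent.Lib.NL.momL β x δ T = momentAt β x δ T := rfl
      rw [e]
      linarith
    have h12 : (∃ x K : ℝ, 0 ≤ K ∧ BoundedOrder β x K) → ∀ x K : ℝ, BoundedOrder β x K := by
      intro h x K
      obtain ⟨C, hC, h1⟩ := h13 h x 1 one_pos
      refine (hbd β x K).mpr (Pool.Agent.Lib.DL.bounded_of_upper (A := 2 * arith β) hβ hC ?_ K)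
      intro δ T hδ hδC hT hCT
      have h2 := (abs_le.mp (h1 δ T hδ hδC hT hCT)).2
      have e : Pool.Agent.Lib.NL.momL β x δ T = momentAt β x δ T := rfl
      rw [e]
      linarith
    tfae_have 1 → 2 := h12
    tfae_have 2 → 1 := fun h => ⟨0, 0, le_rfl, h 0 0⟩
    tfae_have 1 → 4 := h13
    tfae_have 4 → 3 := fun h => ⟨0, h 0⟩
    tfae_have 3 → 1 := h32
    tfae_finish
  · intro x β hβ
    refine isClosed_of_closure_subset fun Ks hKs => ?_
    rw [Metric.mem_closure_iff] at hKs
    refine ⟨?_, ?_⟩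
    · by_contra hneg
      push Not at hneg
      obtain ⟨K, hK, hd⟩ := hKs (-Ks) (by linarith)
      rw [Real.dist_eq, abs_lt] at hd
      linarith [hK.1, hd.1]
    · have h := LFA.r10 LFA.r0 (LFA.r3 LFA.h2) (x := x) hβ (Ks := Ks) fun ε hε => by
        obtain ⟨K, hK, hd⟩ := hKs ε hε
        rw [dist_comm, Real.dist_eq] at hd
        obtain ⟨l, hl⟩ := hK.2
        rw [hsc] at hl
        exact ⟨K, hK.1, hd, l, hl⟩
      obtain ⟨l, hl⟩ := h
      exact ⟨l, by rw [hsc]; exact hl⟩
  · intro k x hk hns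
    set Λ : Set ℝ := lawSet (2 * k) x with hΛ
    set S : Set ℂ := (fun K : ℝ => (K : ℂ)) '' Λ with hS
    have hne : Λ.Nonempty := by
      by_contra h
      rw [Set.not_nonempty_iff_eq_empty] at h
      apply hns
      haveI : IsEmpty Λ := by rw [h]; infer_instance
      exact summable_empty
    have hre : ∀ s ∈ S, 0 ≤ s.re := by
      rintro s ⟨K, hK, rfl⟩
      simpa using hK.1
    have hsum : ¬ Summable (fun s : S => (1 + (s : ℂ).re) / (1 + ‖(s : ℂ)‖ ^ 2)) := by
      intro hs
      apply hns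
      have h1 : Summable (fun K : Λ => (1 + (K : ℝ)) / (1 + (K : ℝ) ^ 2)) := by
        have h2 := hs.comp_injective (i := fun K : Λ => (⟨((K : ℝ) : ℂ), K, K.2, rfl⟩ : S))
          (fun K K' h => by
            have := congrArg (fun s : S => (s : ℂ)) h
            simp only [Complex.ofReal_inj] at this
            exact Subtype.ext this)
        refine h2.congr fun K => ?_
        simp only [Function.comp_apply, Complex.ofReal_re, Complex.norm_real, Real.norm_eq_abs,
          sq_abs]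
      refine Summable.of_nonneg_of_le (fun K => ?_) (fun K => ?_) h1
      · have := K.2.1
        positivity
      · have hK := K.2.1
        rw [div_le_div_iff₀ (by positivity) (by positivity)]
        nlinarith
    obtain ⟨K0, hK0⟩ := hne
    obtain ⟨f, -, hlim, hpos, -⟩ := LFA.main.2.1 k x S hk ⟨hre, hsum⟩ ⟨K0, K0, hK0, rfl⟩ (by
      rintro s ⟨K, hK, rfl⟩
      obtain ⟨l, hl⟩ := hK.2
      refine ⟨(l : ℂ), ?_⟩
      have h1 : Tendsto (fun T => ((scaled (2 * k) x K T : ℝ) : ℂ)) atTop (𝓝 (l : ℂ)) :=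
        (Complex.continuous_ofReal.tendsto _).comp hl
      refine h1.congr fun T => ?_
      rw [LFA.R9x.shifted_real]
      unfold scaled
      rw [LFA.R9x.expo, hmom])
    refine ⟨fun K => (f K).re, fun K => ?_, hpos⟩
    have h1 := (Complex.continuous_re.tendsto _).comp (hlim (K : ℂ))
    refine h1.congr fun T => ?_
    simp only [Function.comp_apply]
    rw [LFA.R9x.shifted_real, Complex.ofReal_re]
    unfold scaled
    rw [LFA.R9x.expo, hmom]

end Pool.Agent.Results.MP_f9aece_nt.NearLineFour
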