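import Mathlib
import Pool.Agent.Lib.MP_f9aece_nt_rate.All
import Pool.Agent.Lib.MP_f9aece_nt_rate.F3
import Pool.Agent.Lib.MP_f9aece_nt_gt.G3

/-!
The rate of convergence in the central limit theorem of Selberg for the logarithm of the modulus of the
randomly shifted zeta function.

Let `ω` be uniform on `[0, 1]`, `μ = zeta(1/2 + i x + i ω T)`, `l = log log T`, `s = sqrt (l / 2)` and `Z` a
standard Gaussian variable.  There are `C, δ > 0` with
`|P(log |μ| > V) - P(s Z > V)| ≤ (C / sqrt l) exp (-max(V, 0)^2 / l)` for all real `V ≤ δ l`, and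
`|E |μ|^β - (log T)^(β^2/4)| ≤ C (β + 1 / sqrt l) (log T)^(β^2/4)` for `0 < β ≤ δ`, for all large `T`.
-/

set_option autoImplicit false

namespace Pool.Agent.Results.MP_f9aece_nt.SelbergRate

open MeasureTheory Complex

/-- the modulus of the shifted zeta function -/
noncomputable def modulus (x T u : ℝ) : ℝ := ‖riemannZeta (1 / 2 + I * x + I * u * T)‖

/-- the probability of the event `|μ| > y` -/
noncomputable def upperTail (x T y : ℝ) : ℝ :=
  (volume {u : ℝ | u ∈ Set.Icc (0 : ℝ) 1 ∧ y < modulus x T u}).toReal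

/-- the moment of order `β` of the modulus -/
noncomputable def moment (β x T : ℝ) : ℝ := ∫ u in (0 : ℝ)..1, modulus x T u ^ β

/-- the density of the standard Gaussian law -/
noncomputable def gaussianDensity (t : ℝ) : ℝ :=
  (Real.sqrt (2 * Real.pi))⁻¹ * Real.exp (-(t ^ 2 / 2))

/-- the tail of the standard Gaussian law -/
noncomputable def gaussianTail (y : ℝ) : ℝ := ∫ t in Set.Ioi y, gaussianDensity t

private theorem tail_eq (y : ℝ) : gaussianTail y = Pool.Agent.Lib.GT.tl y := by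
  unfold gaussianTail Pool.Agent.Lib.GT.tl
  rw [Pool.Agent.Lib.GT.G1.meas_eq]
  exact integral_congr_ae (Filter.Eventually.of_forall fun t => (Pool.Agent.Lib.GT.G1.pdf_eq t).symm)

private theorem interval_eq (f : ℝ → ℝ) : ∫ u in (0 : ℝ)..1, f u = ∫ u in Set.Icc (0 : ℝ) 1, f u := by
  rw [intervalIntegral.integral_of_le zero_le_one, ← integral_Icc_eq_integral_Ioc]

theorem result : ∃ C δ T₀ : ℝ, 0 < C ∧ 0 < δ ∧ ∀ x T : ℝ, T₀ ≤ T → |x| ≤ T ^ (9 / 10 : ℝ) →
    (∀ V : ℝ, V ≤ δ * Real.log (Real.log T) →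
      |upperTail x T (Real.exp V) - gaussianTail (V / Real.sqrt (Real.log (Real.log T) / 2))|
        ≤ C / Real.sqrt (Real.log (Real.log T)) * Real.exp (-(max V 0 ^ 2 / Real.log (Real.log T)))) ∧
    (∀ β : ℝ, 0 < β → β ≤ δ →
      |moment β x T - Real.log T ^ (β ^ 2 / 4)|
        ≤ C * (β + 1 / Real.sqrt (Real.log (Real.log T))) * Real.log T ^ (β ^ 2 / 4)) := by
  obtain ⟨C₁, δ₁, T₁, hC₁, hδ₁, h₁⟩ := Pool.Agent.Lib.RA.all
  obtain ⟨C₂, δ₂, T₂, hC₂, hδ₂, h₂⟩ := Pool.Agent.Lib.RA.momRate Pool.Agent.Lib.RA.all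
  obtain ⟨T₃, hT₃⟩ := Filter.eventually_atTop.mp
    (Pool.Agent.Lib.GT.tendsto_loglog.eventually (Filter.eventually_ge_atTop 1))
  refine ⟨max C₁ C₂, min δ₁ δ₂, max (max T₁ T₂) (max T₃ 3), lt_max_of_lt_left hC₁, lt_min hδ₁ hδ₂,
    fun x T hT hx => ?_⟩
  have t1 : T₁ ≤ T := ((le_max_left _ _).trans (le_max_left _ _)).trans hT
  have t2 : T₂ ≤ T := ((le_max_right _ _).trans (le_max_left _ _)).trans hT
  have t3 : T₃ ≤ T := ((le_max_left _ _).trans (le_max_right _ _)).trans hT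
  have t4 : 3 ≤ T := ((le_max_right _ _).trans (le_max_right _ _)).trans hT
  have hl : 1 ≤ Real.log (Real.log T) := hT₃ T t3
  have hL : 0 ≤ Real.log T := Real.log_nonneg (by linarith)
  refine ⟨fun V hV => ?_, fun β hβ hβδ => ?_⟩
  · rw [tail_eq]
    refine (h₁ x T V t1 hx (hV.trans ?_)).trans ?_
    · have := min_le_left δ₁ δ₂
      gcongr
    · have := le_max_left C₁ C₂
      gcongr
  · unfold moment
    rw [interval_eq]
    refine (h₂ x T β t2 hx hβ (hβδ.trans (min_le_right _ _))).trans ?_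
    have := le_max_right C₁ C₂
    gcongr

end Pool.Agent.Results.MP_f9aece_nt.SelbergRate
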