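import Mathlib
import Pool.Agent.Lib.UFY.All

/-!
# All real moments of weighted partial sums of zeta and of window averages of zeta

Let `W` be a weight on `[0, ∞)`: `W 0 = 1` and `W` is the sum of a Lipschitz function, zero on
`[1, ∞)`, and of finitely many multiples of indicators of intervals `[0, b]`, `0 < b ≤ 1`.

For every real `β > 0` the moment of order `β` of `∑_{m ≤ N} W(log m / log N) m^{-s}` at the randomly
shifted point `s = 1/2 + i x + i ω T`, `ω` uniform on `[0, 1]`, is asymptotic to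
`a(β) γ (log N)^{β²/4}` when `N → ∞` and `log N / log T → 0`, uniformly in all real `x`.  Here `a(β)` is
the arithmetic factor of Keating and Snaith and `γ > 0` is the limit of
`L^{-β²/4} E|∑_{n ≤ L} W(n / L) c_n|^β`, where the `c_n` are the coefficients of
`exp (∑_{j ≥ 1} z_j X^j / √j)` and the `z_j` are independent standard complex Gaussian variables.

If `W x = φ^(R x)` is the transform of a band-limited function `φ`, then the moment of order `β` of the
average of zeta over a window of width `H` against `φ` is asymptotic to `a(β) γ (R / H)^{β²/4}`, with the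
same `γ`, when `H → 0` and `H log T → ∞`.
-/

set_option autoImplicit false

namespace Pool.Agent.Results.MP_f9aece_nt.WeightedSums

open MeasureTheory ProbabilityTheory Filter Topology Complex

/-- The weights: one at zero, and on `[0, ∞)` the sum of a Lipschitz function, zero on `[1, ∞)`, and of
multiples `a j` of the indicators of `[0, b j]`, `j < n`. -/
def IsWeight (W : ℝ → ℂ) : Prop :=
  W 0 = 1 ∧ ∃ (Λ : ℝ) (w₀ : ℝ → ℂ) (n : ℕ) (a : ℕ → ℂ) (b : ℕ → ℝ),
    (∀ x y, 0 ≤ x → 0 ≤ y → ‖w₀ x - w₀ y‖ ≤ Λ * |x - y|) ∧ (∀ x, 1 ≤ x → w₀ x = 0) ∧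
    (∀ j, j < n → 0 < b j ∧ b j ≤ 1) ∧
    ∀ x, 0 ≤ x → W x = w₀ x + ∑ j ∈ Finset.range n, a j * (if x ≤ b j then 1 else 0)

/-- The partial sum of length `N` of the Dirichlet series of zeta with the weight `W`. -/
noncomputable def weightedSum (W : ℝ → ℂ) (N : ℕ) (s : ℂ) : ℂ :=
  ∑ m ∈ Finset.Icc 1 N, W (Real.log m / Real.log N) * (m : ℂ) ^ (-s)

/-- Its moment of order `β` at `1/2 + i x + i ω T`, `ω` uniform on `[0, 1]`. -/
noncomputable def sumMoment (W : ℝ → ℂ) (β x T : ℝ) (N : ℕ) : ℝ :=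
  ∫ u in (0 : ℝ)..1, ‖weightedSum W N (1 / 2 + I * x + I * u * T)‖ ^ β

/-- The coefficients `Γ(k + i) / (Γ(k) i!)` of the power series of `(1 - z)^(-k)`. -/
noncomputable def coef (k : ℝ) (i : ℕ) : ℝ := ∏ l ∈ Finset.range i, (k + l) / (l + 1)

/-- The arithmetic factor `∏_p (1 - 1/p)^(β²/4) ∑_i (Γ(i + β/2) / (Γ(β/2) i!))² p^(-i)`. -/
noncomputable def arith (β : ℝ) : ℝ :=
  ∏' p : Nat.Primes, ((1 - ((p : ℕ) : ℝ)⁻¹) ^ (β ^ 2 / 4)
    * ∑' i : ℕ, coef (β / 2) i ^ 2 * (((p : ℕ) : ℝ)⁻¹) ^ i)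

/-- The standard complex Gaussian measure (`E|z|^2 = 1`, real and imaginary part independent). -/
noncomputable def stdGaussian : Measure ℂ :=
  ((gaussianReal 0 (1 / 2)).prod (gaussianReal 0 (1 / 2))).map fun p => (p.1 : ℂ) + I * p.2

/-- The law of a sequence of independent standard complex Gaussian variables. -/
noncomputable def gaussianSeq : Measure (ℕ → ℂ) := Measure.infinitePi fun _ => stdGaussian

/-- The coefficients `c_n` of `exp (∑_(j ≥ 1) z_j X^j / √j)`: `c_0 = 1` and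
`(n + 1) c_(n + 1) = ∑_(0 ≤ j ≤ n) √(j + 1) z_(j + 1) c_(n - j)`. -/
noncomputable def expCoef (z : ℕ → ℂ) : ℕ → ℂ
  | 0 => 1
  | n + 1 => (∑ j : Fin (n + 1), (Real.sqrt ((j : ℝ) + 1) : ℂ) * z (j + 1) * expCoef z (n - j))
      / (n + 1)

/-- The moment of order `β` of the Gaussian model. -/
noncomputable def modelMoment (W : ℝ → ℂ) (β : ℝ) (L : ℕ) : ℝ :=
  ∫ z, ‖∑ n ∈ Finset.range (L + 1), W ((n : ℝ) / L) * expCoef z n‖ ^ β ∂gaussianSeq

/-- The transform `φ^(r) = ∫ φ(v) e^(-irv) dv`. -/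
noncomputable def transform (φ : ℝ → ℂ) (r : ℝ) : ℂ := ∫ v : ℝ, φ v * cexp (-(I * ((r * v : ℝ) : ℂ)))

/-- `φ` is integrable with the weight `1 + |v|`, its transform vanishes outside `(-R, R)`, and
`W x = φ^(R x)` for `x ≥ 0`. -/
def IsWindow (φ : ℝ → ℂ) (R : ℝ) (W : ℝ → ℂ) : Prop :=
  0 < R ∧ Integrable (fun v : ℝ => ((1 + |v| : ℝ) : ℂ) * φ v) ∧
    (∀ r, R ≤ |r| → transform φ r = 0) ∧ ∀ x, 0 ≤ x → W x = transform φ (R * x)

/-- The average of zeta over the window of width `H` at `1/2 + i y` against `φ`. -/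
noncomputable def windowAverage (φ : ℝ → ℂ) (H y : ℝ) : ℂ :=
  ∫ v : ℝ, riemannZeta (1 / 2 + I * ((y + H * v : ℝ) : ℂ)) * φ v

/-- Its moment of order `β` at `y = x + ω T`. -/
noncomputable def windowMoment (φ : ℝ → ℂ) (β x T H : ℝ) : ℝ :=
  ∫ u in (0 : ℝ)..1, ‖windowAverage φ H (x + u * T)‖ ^ β

/-- **Main result.** -/
theorem result (β : ℝ) (hβ : 0 < β) (W : ℝ → ℂ) (hW : IsWeight W) : 0 < arith β ∧ ∃ γ : ℝ, 0 < γ ∧
    Tendsto (fun L : ℕ => modelMoment W β L / (L : ℝ) ^ (β ^ 2 / 4)) atTop (𝓝 γ) ∧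
    (∀ ε : ℝ, 0 < ε → ∃ C : ℝ, 0 < C ∧ ∀ (x T : ℝ) (N : ℕ), C ≤ N → (N : ℝ) ^ C ≤ T →
      |sumMoment W β x T N - arith β * γ * Real.log N ^ (β ^ 2 / 4)|
        ≤ ε * Real.log N ^ (β ^ 2 / 4)) ∧
    ∀ (φ : ℝ → ℂ) (R : ℝ), IsWindow φ R W → ∀ ε : ℝ, 0 < ε → ∃ C : ℝ, 0 < C ∧
      ∀ x T H : ℝ, 1 ≤ T → 0 < H → C * H ≤ 1 → C ≤ H * Real.log T →
      |windowMoment φ β x T H - arith β * γ * (R / H) ^ (β ^ 2 / 4)|
        ≤ ε * (R / H) ^ (β ^ 2 / 4) := by
  obtain ⟨hW0, Λ, w₀, n, a, b, h1, h2, h3, h4⟩ := hW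
  obtain ⟨g, hg, hG, hI, hZ⟩ := Pool.Agent.UFY.xFinZ (β / 2) W (by positivity) Λ w₀ n a b h1 h2 h3
    hW0 h4
  have e1 : 2 * (β / 2) = β := by ring
  have e2 : (β / 2) ^ 2 = β ^ 2 / 4 := by ring
  have hak : Pool.Agent.Lib.NL.ak (β / 2) = arith β := by
    unfold Pool.Agent.Lib.NL.ak arith Pool.Agent.Lib.NL.Fi
    rw [e2]
    rfl
  have hpos : 0 < arith β := by
    rw [← hak]
    obtain ⟨N0, hN0⟩ := exists_nat_ge (β / 2)
    exact Pool.Agent.Lib.NL.ak_pos (N := N0 + 1) (by omega) (by positivity) (by push_cast; linarith)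
  refine ⟨hpos, g, hg, ?_, ?_, ?_⟩
  · have hzero : ∀ x, 1 < x → W x = 0 := by
      intro x hx
      rw [h4 x (by linarith), h2 x hx.le, zero_add]
      refine Finset.sum_eq_zero fun j hj => ?_
      have h5 := (h3 j (Finset.mem_range.mp hj)).2
      rw [if_neg (by linarith), mul_zero]
    have h5 := Pool.Agent.UFY.model Pool.Agent.UFY.xRecW hzero hG expCoef
      (fun z => by rw [expCoef]) (fun z n => by
        rw [expCoef, Finset.sum_range (n := n + 1)
          (fun j => (Real.sqrt ((j : ℝ) + 1) : ℂ) * z (j + 1) * expCoef z (n - j)),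
          mul_div_cancel₀]
        exact_mod_cast Nat.succ_ne_zero n)
    rw [e1, e2] at h5
    exact h5
  · have h5 := Pool.Agent.UFY.sums hI (weightedSum W) fun N s => rfl
    rw [e1, e2, hak] at h5
    exact h5
  · rintro φ R ⟨hR, hφ, hsupp, hφW⟩
    have hadm : Pool.Agent.Lib.MS.Adm φ R := by
      refine ⟨hR, hφ, ?_, hsupp⟩
      have h5 := hφW 0 le_rfl
      rw [hW0, mul_zero] at h5
      unfold transform at h5
      simp only [zero_mul, Complex.ofReal_zero, mul_zero, neg_zero, Complex.exp_zero,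
        mul_one] at h5
      exact h5.symm
    have h5 := Pool.Agent.UFY.windows (φ := φ) hR (hZ φ R hadm hφW) (windowAverage φ)
      fun H y => rfl
    rw [e1, e2, hak] at h5
    exact h5

end Pool.Agent.Results.MP_f9aece_nt.WeightedSums
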